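import Pool.Agent.R270.Hidden.Top

/-!
# Relative hidden-set characterization of polyhedric convex sets

For closed convex sets `C ⊆ D` in a complete linear metric space, `C` hides no infinite subset
of `D \ C` if and only if `C` is polyhedric in `D ∩ aff(C)`.
-/

namespace Pool.Agent.Results.MP_ec84ce_an.HiddenSets

open Set Filter Topology TopologicalSpace Pool.Agent.R270.Hidden

variable {X : Type*} [AddCommGroup X] [Module ℝ X]

/-- `C` hides `A` if the closed segment between any two distinct points of `A` meets `C`. -/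
def Hides (C A : Set X) : Prop :=
  ∀ a ∈ A, ∀ b ∈ A, a ≠ b → (segment ℝ a b ∩ C).Nonempty

/-- `C` is polyhedric in `D'` if `C` is the intersection of finitely many (at least one) sets
`H₁, …, Hₙ ⊆ D'` such that each `Hᵢ` and each `D' \ Hᵢ` is convex. -/
def PolyhedricIn (C D' : Set X) : Prop :=
  ∃ (n : ℕ) (H : Fin (n + 1) → Set X),
    (∀ i, H i ⊆ D' ∧ Convex ℝ (H i) ∧ Convex ℝ (D' \ H i)) ∧ C = ⋂ i, H i

/-- a polyhedric set hides no infinite set -/
theorem not_hides {C D : Set X} (hCne : C ⊆ D)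
    (h : PolyhedricIn C (D ∩ (affineSpan ℝ C : Set X))) :
    ¬ ∃ A : Set X, A ⊆ D \ C ∧ A.Infinite ∧ Hides C A := by
  classical
  rintro ⟨A, hA, hinf, hh⟩
  obtain ⟨n, H, hH, hCH⟩ := h
  -- the part of `A` in the affine hull is finite
  have hfin : (A ∩ (affineSpan ℝ C : Set X)).Finite := by
    by_contra hinf2
    have hex : ∀ a ∈ A ∩ (affineSpan ℝ C : Set X), ∃ i, a ∉ H i := by
      rintro a ⟨ha, _⟩
      by_contra hcon
      push Not at hcon
      apply (hA ha).2
      rw [hCH]
      exact mem_iInter.2 hcon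
    choose! f hf using hex
    obtain ⟨a, ha, b, hb, hab, hfab⟩ := Set.Infinite.exists_ne_map_eq_of_mapsTo (f := f)
      (s := A ∩ (affineSpan ℝ C : Set X)) (t := univ) hinf2 (mapsTo_univ _ _) finite_univ
    obtain ⟨p, hp, hpC⟩ := hh a ha.1 b hb.1 hab
    have h1 : a ∈ (D ∩ (affineSpan ℝ C : Set X)) \ H (f a) := ⟨⟨(hA ha.1).1, ha.2⟩, hf a ha⟩
    have h2 : b ∈ (D ∩ (affineSpan ℝ C : Set X)) \ H (f a) :=
      ⟨⟨(hA hb.1).1, hb.2⟩, by rw [hfab]; exact hf b hb⟩
    have h3 := (hH (f a)).2.2.segment_subset h1 h2 hp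
    rw [hCH] at hpC
    exact h3.2 (mem_iInter.1 hpC _)
  have hinf3 : (A \ (affineSpan ℝ C : Set X)).Infinite := by
    intro hfin2
    apply hinf
    rw [← Set.inter_union_diff A (affineSpan ℝ C : Set X)]
    exact hfin.union hfin2
  obtain ⟨t, ht, htc⟩ := hinf3.exists_subset_card_eq 3
  obtain ⟨a, b, e, hab, hae, hbe, rfl⟩ := Finset.card_eq_three.1 htc
  have ha := ht (show a ∈ (↑({a, b, e} : Finset X) : Set X) by simp)
  have hb := ht (show b ∈ (↑({a, b, e} : Finset X) : Set X) by simp)
  have he := ht (show e ∈ (↑({a, b, e} : Finset X) : Set X) by simp)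
  obtain ⟨p, hp, hpC⟩ := hh a ha.1 b hb.1 hab
  obtain ⟨r, hr, hrC⟩ := hh a ha.1 e he.1 hae
  obtain ⟨s, hs, hsC⟩ := hh b hb.1 e he.1 hbe
  -- a functional vanishing on the direction of the affine hull, nonzero at `a - p`
  have hpA : p ∈ affineSpan ℝ C := subset_affineSpan ℝ C hpC
  have hrA : r ∈ affineSpan ℝ C := subset_affineSpan ℝ C hrC
  have hsA : s ∈ affineSpan ℝ C := subset_affineSpan ℝ C hsC
  have hnot : a - p ∉ (affineSpan ℝ C).direction := by
    intro hcon
    apply ha.2
    have := AffineSubspace.vadd_mem_of_mem_direction hcon hpA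
    simpa using this
  obtain ⟨f, hf0, hf1⟩ := Submodule.exists_le_ker_of_notMem hnot
  have hz : ∀ x ∈ affineSpan ℝ C, f (x - p) = 0 := by
    intro x hx
    exact hf1 (AffineSubspace.vsub_mem_direction hx hpA)
  have hseg : ∀ {x y z : X}, z ∈ segment ℝ x y → z ∈ C → x ∉ C → y ∉ C →
      ∃ α β : ℝ, 0 < α ∧ 0 < β ∧ α * f (x - p) + β * f (y - p) = 0 := by
    rintro x y z ⟨α, β, hα, hβ, hαβ, rfl⟩ hzC hx hy
    have hα' : 0 < α := by
      rcases hα.eq_or_lt with h0 | h0
      · exfalso
        have : β = 1 := by linarith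
        rw [← h0, this, zero_smul, one_smul, zero_add] at hzC
        exact hy hzC
      · exact h0
    have hβ' : 0 < β := by
      rcases hβ.eq_or_lt with h0 | h0
      · exfalso
        have : α = 1 := by linarith
        rw [← h0, this, zero_smul, one_smul, add_zero] at hzC
        exact hx hzC
      · exact h0
    refine ⟨α, β, hα', hβ', ?_⟩
    have h1 := hz _ (subset_affineSpan ℝ C hzC)
    have e1 : α • x + β • y - p = α • (x - p) + β • (y - p) := by
      have : p = (α + β) • p := by rw [hαβ, one_smul]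
      calc α • x + β • y - p = α • x + β • y - (α + β) • p := by rw [← this]
        _ = _ := by module
    rw [e1, map_add, map_smul, map_smul, smul_eq_mul, smul_eq_mul] at h1
    exact h1
  have haC : a ∉ C := (hA ha.1).2
  have hbC : b ∉ C := (hA hb.1).2
  have heC : e ∉ C := (hA he.1).2
  obtain ⟨α, β, hα, hβ, h1⟩ := hseg hp hpC haC hbC
  obtain ⟨α', β', hα', hβ', h2⟩ := hseg hr hrC haC heC
  obtain ⟨α'', β'', hα'', hβ'', h3⟩ := hseg hs hsC hbC heC
  set u := f (a - p)
  set v := f (b - p)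
  set w := f (e - p)
  have hu : u ≠ 0 := hf0
  have h4 : β * β' * (α'' * v + β'' * w) = -(α'' * β' * α + β'' * β * α') * u := by
    have e1 : β * v = -(α * u) := by linarith
    have e2 : β' * w = -(α' * u) := by linarith
    calc β * β' * (α'' * v + β'' * w) = α'' * β' * (β * v) + β'' * β * (β' * w) := by ring
      _ = _ := by rw [e1, e2]; ring
  rw [h3, mul_zero] at h4
  have h5 : 0 < α'' * β' * α + β'' * β * α' := by positivity
  have h6 : (α'' * β' * α + β'' * β * α') * u = 0 := by linarith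
  rcases mul_eq_zero.1 h6 with h7 | h7
  · exact h5.ne' h7
  · exact hu h7

/-- **Full positive answer to Q1.** -/
theorem result {X : Type*} [AddCommGroup X] [Module ℝ X] [TopologicalSpace X]
    [IsTopologicalAddGroup X] [ContinuousSMul ℝ X] [IsCompletelyMetrizableSpace X]
    (C D : Set X) (hC : IsClosed C) (hD : IsClosed D) (hCc : Convex ℝ C) (hDc : Convex ℝ D)
    (hCD : C ⊆ D) :
    (¬ ∃ A : Set X, A ⊆ D \ C ∧ A.Infinite ∧ Hides C A) ↔
      PolyhedricIn C (D ∩ (affineSpan ℝ C : Set X)) := by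
  classical
  refine ⟨fun h => ?_, not_hides hCD⟩
  by_cases hcov : ∃ k, FinCov C k ((D ∩ (affineSpan ℝ C : Set X)) \ C)
  · obtain ⟨k, K, hK, hcov⟩ := hcov
    have hst : ∀ i, ∃ S : Set X, Convex ℝ S ∧ Convex ℝ Sᶜ ∧ C ⊆ S ∧ K i ⊆ Sᶜ := fun i =>
      exists_convex_convex_compl_subset hCc (hK i).1 (hK i).2.symm
    choose S hS1 hS2 hS3 hS4 using hst
    have hD' : Convex ℝ (D ∩ (affineSpan ℝ C : Set X)) := hDc.inter (affineSpan ℝ C).convex
    refine ⟨k, Fin.cons (D ∩ (affineSpan ℝ C : Set X))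
      (fun i => S i ∩ (D ∩ (affineSpan ℝ C : Set X))), ?_, ?_⟩
    · intro i
      refine Fin.cases ?_ (fun i => ?_) i
      · simp only [Fin.cons_zero]
        refine ⟨Subset.rfl, hD', ?_⟩
        rw [Set.diff_self]; exact convex_empty
      · simp only [Fin.cons_succ]
        refine ⟨inter_subset_right, (hS1 i).inter hD', ?_⟩
        have e : (D ∩ (affineSpan ℝ C : Set X)) \ (S i ∩ (D ∩ (affineSpan ℝ C : Set X))) =
            (S i)ᶜ ∩ (D ∩ (affineSpan ℝ C : Set X)) := by
          ext x
          simp only [mem_diff, mem_inter_iff, mem_compl_iff]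
          tauto
        rw [e]
        exact (hS2 i).inter hD'
    · ext x
      rw [mem_iInter]
      constructor
      · intro hx i
        refine Fin.cases ?_ (fun i => ?_) i
        · exact ⟨hCD hx, subset_affineSpan ℝ C hx⟩
        · exact ⟨hS3 i hx, hCD hx, subset_affineSpan ℝ C hx⟩
      · intro hx
        by_contra hxC
        have h0 : x ∈ D ∩ (affineSpan ℝ C : Set X) := hx 0
        obtain ⟨i, hi⟩ := mem_iUnion.1 (hcov ⟨h0, hxC⟩)
        have h1 : x ∈ S i ∩ (D ∩ (affineSpan ℝ C : Set X)) := hx i.succ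
        exact hS4 i hi h1.1
  · exfalso
    push Not at hcov
    obtain ⟨a, ha1, ha2⟩ := exists_hidden hC hD hCc hDc hCD hcov
    have hne : ∀ n m, n < m → a n ≠ a m := by
      intro n m hnm he
      obtain ⟨p, hp, hpC⟩ := ha2 n m hnm
      rw [he, segment_same] at hp
      rw [mem_singleton_iff.1 hp] at hpC
      exact (ha1 m).2 hpC
    have hinj : Function.Injective a := by
      intro n m he
      rcases lt_trichotomy n m with h1 | h1 | h1
      · exact absurd he (hne n m h1)
      · exact h1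
      · exact absurd he.symm (hne m n h1)
    apply h
    refine ⟨range a, ?_, infinite_range_of_injective hinj, ?_⟩
    · rintro _ ⟨n, rfl⟩; exact ha1 n
    · rintro _ ⟨n, rfl⟩ _ ⟨m, rfl⟩ hnm
      rcases lt_trichotomy n m with h1 | h1 | h1
      · exact ha2 n m h1
      · exact absurd (by rw [h1]) hnm
      · rw [segment_symm]; exact ha2 m n h1

end Pool.Agent.Results.MP_ec84ce_an.HiddenSets
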